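import Pool.Agent.W146.Six.Gate

set_option autoImplicit false

/-!
# Four orthogonal latin 4-cubes of order six
-/

namespace Pool.Agent.W146.Six

open Function Pool.Agent.H430R2.PermCubes

theorem inj4 : ∀ (t t' : ZMod 3) (e0 e1 e2 e3 e0' e1' e2' e3' : ZMod 2),
    f4 0 t e0 e1 e2 e3 + f4 3 t e0 e1 e2 e3 - f4 2 t e0 e1 e2 e3 =
      f4 0 t' e0' e1' e2' e3' + f4 3 t' e0' e1' e2' e3' - f4 2 t' e0' e1' e2' e3' →
    g4 0 t e0 e1 e2 e3 = g4 0 t' e0' e1' e2' e3' → g4 1 t e0 e1 e2 e3 = g4 1 t' e0' e1' e2' e3' →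
    g4 2 t e0 e1 e2 e3 = g4 2 t' e0' e1' e2' e3' → g4 3 t e0 e1 e2 e3 = g4 3 t' e0' e1' e2' e3' →
    t = t' ∧ e0 = e0' ∧ e1 = e1' ∧ e2 = e2' ∧ e3 = e3' := by
  decide +kernel

/-- the coefficient table of the ternary parts -/
def a4 (i j : ℕ) : ZMod 3 :=
  (([[0, 0, 1, 0], [0, 1, 0, 0], [1, 0, 1, 0], [1, 0, 0, 0]] : List (List (ZMod 3))).getD i []).getD j 0

theorem line4_0 : ∀ (i : Fin 4) (t t' : ZMod 3) (e1 e2 e3 s s' : ZMod 2),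
    a4 i 0 * t + f4 i t s e1 e2 e3 = a4 i 0 * t' + f4 i t' s' e1 e2 e3 →
    g4 i t s e1 e2 e3 = g4 i t' s' e1 e2 e3 → t = t' ∧ s = s' := by
  decide +kernel

theorem line4_1 : ∀ (i : Fin 4) (t t' : ZMod 3) (e0 e2 e3 s s' : ZMod 2),
    a4 i 1 * t + f4 i t e0 s e2 e3 = a4 i 1 * t' + f4 i t' e0 s' e2 e3 →
    g4 i t e0 s e2 e3 = g4 i t' e0 s' e2 e3 → t = t' ∧ s = s' := by
  decide +kernel

theorem line4_2 : ∀ (i : Fin 4) (t t' : ZMod 3) (e0 e1 e3 s s' : ZMod 2),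
    a4 i 2 * t + f4 i t e0 e1 s e3 = a4 i 2 * t' + f4 i t' e0 e1 s' e3 →
    g4 i t e0 e1 s e3 = g4 i t' e0 e1 s' e3 → t = t' ∧ s = s' := by
  decide +kernel

theorem line4_3 : ∀ (i : Fin 4) (t t' : ZMod 3) (e0 e1 e2 s s' : ZMod 2),
    a4 i 3 * t + f4 i t e0 e1 e2 s = a4 i 3 * t' + f4 i t' e0 e1 e2 s' →
    g4 i t e0 e1 e2 s = g4 i t' e0 e1 e2 s' → t = t' ∧ s = s' := by
  decide +kernel

/-- the four cubes -/
def F4 (x : Fin 4 → S) (i : Fin 4) : S :=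
  (a4 i 0 * (x 0).1 + a4 i 1 * (x 1).1 + a4 i 2 * (x 2).1 + a4 i 3 * (x 3).1 +
      f4 i ((x 0).1 + (x 1).1 + (x 2).1 + (x 3).1) (x 0).2 (x 1).2 (x 2).2 (x 3).2,
    g4 i ((x 0).1 + (x 1).1 + (x 2).1 + (x 3).1) (x 0).2 (x 1).2 (x 2).2 (x 3).2)

theorem F4_injective : Injective F4 := by
  intro x y h
  have h0 : F4 x 0 = F4 y 0 := congrFun h 0
  have h1 : F4 x 1 = F4 y 1 := congrFun h 1
  have h2 : F4 x 2 = F4 y 2 := congrFun h 2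
  have h3 : F4 x 3 = F4 y 3 := congrFun h 3
  have E0 : 0 * (x 0).1 + 0 * (x 1).1 + 1 * (x 2).1 + 0 * (x 3).1 +
      f4 0 ((x 0).1 + (x 1).1 + (x 2).1 + (x 3).1) (x 0).2 (x 1).2 (x 2).2 (x 3).2 =
      0 * (y 0).1 + 0 * (y 1).1 + 1 * (y 2).1 + 0 * (y 3).1 +
      f4 0 ((y 0).1 + (y 1).1 + (y 2).1 + (y 3).1) (y 0).2 (y 1).2 (y 2).2 (y 3).2 := (Prod.mk.inj h0).1
  have E1 : 0 * (x 0).1 + 1 * (x 1).1 + 0 * (x 2).1 + 0 * (x 3).1 +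
      f4 1 ((x 0).1 + (x 1).1 + (x 2).1 + (x 3).1) (x 0).2 (x 1).2 (x 2).2 (x 3).2 =
      0 * (y 0).1 + 1 * (y 1).1 + 0 * (y 2).1 + 0 * (y 3).1 +
      f4 1 ((y 0).1 + (y 1).1 + (y 2).1 + (y 3).1) (y 0).2 (y 1).2 (y 2).2 (y 3).2 := (Prod.mk.inj h1).1
  have E2 : 1 * (x 0).1 + 0 * (x 1).1 + 1 * (x 2).1 + 0 * (x 3).1 +
      f4 2 ((x 0).1 + (x 1).1 + (x 2).1 + (x 3).1) (x 0).2 (x 1).2 (x 2).2 (x 3).2 =
      1 * (y 0).1 + 0 * (y 1).1 + 1 * (y 2).1 + 0 * (y 3).1 +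
      f4 2 ((y 0).1 + (y 1).1 + (y 2).1 + (y 3).1) (y 0).2 (y 1).2 (y 2).2 (y 3).2 := (Prod.mk.inj h2).1
  have E3 : 1 * (x 0).1 + 0 * (x 1).1 + 0 * (x 2).1 + 0 * (x 3).1 +
      f4 3 ((x 0).1 + (x 1).1 + (x 2).1 + (x 3).1) (x 0).2 (x 1).2 (x 2).2 (x 3).2 =
      1 * (y 0).1 + 0 * (y 1).1 + 0 * (y 2).1 + 0 * (y 3).1 +
      f4 3 ((y 0).1 + (y 1).1 + (y 2).1 + (y 3).1) (y 0).2 (y 1).2 (y 2).2 (y 3).2 := (Prod.mk.inj h3).1
  have G0 := (Prod.mk.inj h0).2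
  have G1 := (Prod.mk.inj h1).2
  have G2 := (Prod.mk.inj h2).2
  have G3 := (Prod.mk.inj h3).2
  obtain ⟨ht, he0, he1, he2, he3⟩ := inj4 _ _ _ _ _ _ _ _ _ _
    (by linear_combination E0 + E3 - E2) G0 G1 G2 G3
  rw [ht, he0, he1, he2, he3] at E0 E1 E3
  have k2 : (x 2).1 = (y 2).1 := by linear_combination E0
  have k1 : (x 1).1 = (y 1).1 := by linear_combination E1
  have k0 : (x 0).1 = (y 0).1 := by linear_combination E3
  have k3 : (x 3).1 = (y 3).1 := by linear_combination ht - k0 - k1 - k2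
  funext i
  fin_cases i
  · exact Prod.ext k0 he0
  · exact Prod.ext k1 he1
  · exact Prod.ext k2 he2
  · exact Prod.ext k3 he3

theorem F4_line (i j : Fin 4) (x : Fin 4 → S) : Bijective (fun s => F4 (update x j s) i) := by
  rw [← Finite.injective_iff_bijective]
  intro s s' h
  fin_cases j
  · have key : ∀ s : S, F4 (update x 0 s) i =
        (a4 i 0 * s.1 + a4 i 1 * (x 1).1 + a4 i 2 * (x 2).1 + a4 i 3 * (x 3).1 +
          f4 i (s.1 + (x 1).1 + (x 2).1 + (x 3).1) s.2 (x 1).2 (x 2).2 (x 3).2,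
        g4 i (s.1 + (x 1).1 + (x 2).1 + (x 3).1) s.2 (x 1).2 (x 2).2 (x 3).2) := fun s => rfl
    have h' : F4 (update x 0 s) i = F4 (update x 0 s') i := h
    rw [key, key] at h'
    obtain ⟨h1, h2⟩ := Prod.mk.inj h'
    obtain ⟨ht, hs⟩ := line4_0 i _ _ _ _ _ _ _ (by linear_combination h1) h2
    exact Prod.ext (by linear_combination ht) hs
  · have key : ∀ s : S, F4 (update x 1 s) i =
        (a4 i 0 * (x 0).1 + a4 i 1 * s.1 + a4 i 2 * (x 2).1 + a4 i 3 * (x 3).1 +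
          f4 i ((x 0).1 + s.1 + (x 2).1 + (x 3).1) (x 0).2 s.2 (x 2).2 (x 3).2,
        g4 i ((x 0).1 + s.1 + (x 2).1 + (x 3).1) (x 0).2 s.2 (x 2).2 (x 3).2) := fun s => rfl
    have h' : F4 (update x 1 s) i = F4 (update x 1 s') i := h
    rw [key, key] at h'
    obtain ⟨h1, h2⟩ := Prod.mk.inj h'
    obtain ⟨ht, hs⟩ := line4_1 i _ _ _ _ _ _ _ (by linear_combination h1) h2
    exact Prod.ext (by linear_combination ht) hs
  · have key : ∀ s : S, F4 (update x 2 s) i =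
        (a4 i 0 * (x 0).1 + a4 i 1 * (x 1).1 + a4 i 2 * s.1 + a4 i 3 * (x 3).1 +
          f4 i ((x 0).1 + (x 1).1 + s.1 + (x 3).1) (x 0).2 (x 1).2 s.2 (x 3).2,
        g4 i ((x 0).1 + (x 1).1 + s.1 + (x 3).1) (x 0).2 (x 1).2 s.2 (x 3).2) := fun s => rfl
    have h' : F4 (update x 2 s) i = F4 (update x 2 s') i := h
    rw [key, key] at h'
    obtain ⟨h1, h2⟩ := Prod.mk.inj h'
    obtain ⟨ht, hs⟩ := line4_2 i _ _ _ _ _ _ _ (by linear_combination h1) h2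
    exact Prod.ext (by linear_combination ht) hs
  · have key : ∀ s : S, F4 (update x 3 s) i =
        (a4 i 0 * (x 0).1 + a4 i 1 * (x 1).1 + a4 i 2 * (x 2).1 + a4 i 3 * s.1 +
          f4 i ((x 0).1 + (x 1).1 + (x 2).1 + s.1) (x 0).2 (x 1).2 (x 2).2 s.2,
        g4 i ((x 0).1 + (x 1).1 + (x 2).1 + s.1) (x 0).2 (x 1).2 (x 2).2 s.2) := fun s => rfl
    have h' : F4 (update x 3 s) i = F4 (update x 3 s') i := h
    rw [key, key] at h'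
    obtain ⟨h1, h2⟩ := Prod.mk.inj h'
    obtain ⟨ht, hs⟩ := line4_3 i _ _ _ _ _ _ _ (by linear_combination h1) h2
    exact Prod.ext (by linear_combination ht) hs

theorem joint4 : Joint (Fin 4) S := ⟨F4, F4_injective, F4_line⟩

end Pool.Agent.W146.Six
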