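import Pool.Agent.H430R2.PermCubes.Lower

set_option autoImplicit false

/-!
# From `m - 2` to `m` dimensions
-/

namespace Pool.Agent.W146.Six

open Function Pool.Agent.H430R2.PermCubes

/-- the values handed to the gate -/
def gin {S ι : Type} (G : (ι → S) → (ι → S)) (j0 : ι) (x : Option (Option ι) → S) : Fin 3 → S :=
  ![x none, x (some none), G (fun i => x (some (some i))) j0]

/-- two new dimensions: the gate on the two new variables and one old cube, sums elsewhere -/
def step {S ι : Type} [Add S] [DecidableEq ι] (T : (Fin 3 → S) → (Fin 3 → S))
    (G : (ι → S) → (ι → S)) (j0 : ι) (x : Option (Option ι) → S) : Option (Option ι) → S
  | none => T (gin G j0 x) 0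
  | some none => T (gin G j0 x) 1
  | some (some j) => if j = j0 then T (gin G j0 x) 2 else
      x none + x (some none) + G (fun i => x (some (some i))) j

theorem Joint.step {S ι : Type} [AddCommGroup S] [DecidableEq ι] (h3 : Joint (Fin 3) S)
    (h : Joint ι S) (j0 : ι) : Joint (Option (Option ι)) S := by
  obtain ⟨T, T1, T2⟩ := h3
  obtain ⟨G, G1, G2⟩ := h
  refine ⟨Pool.Agent.W146.Six.step T G j0, ?_, ?_⟩
  · intro x y hxy
    have e0 : T (gin G j0 x) 0 = T (gin G j0 y) 0 := congrFun hxy none
    have e1 : T (gin G j0 x) 1 = T (gin G j0 y) 1 := congrFun hxy (some none)
    have e2 : T (gin G j0 x) 2 = T (gin G j0 y) 2 := by
      have := congrFun hxy (some (some j0))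
      simpa only [Pool.Agent.W146.Six.step, if_true] using this
    have e : gin G j0 x = gin G j0 y := T1 (by
      funext i
      fin_cases i
      · exact e0
      · exact e1
      · exact e2)
    have k0 : x none = y none := congrFun e 0
    have k1 : x (some none) = y (some none) := congrFun e 1
    have k2 : G (fun i => x (some (some i))) j0 = G (fun i => y (some (some i))) j0 := congrFun e 2
    have k3 : G (fun i => x (some (some i))) = G (fun i => y (some (some i))) := by
      funext j
      by_cases hj : j = j0
      · rw [hj]; exact k2
      · have := congrFun hxy (some (some j))
        simp only [Pool.Agent.W146.Six.step, if_neg hj, k0, k1] at this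
        exact add_left_cancel this
    have k4 := G1 k3
    funext o
    match o with
    | none => exact k0
    | some none => exact k1
    | some (some i) => exact congrFun k4 i
  · -- the lines
    have up2 : ∀ (l : ι) (x : Option (Option ι) → S) (t : S),
        (fun i => update x (some (some l)) t (some (some i))) =
          update (fun i => x (some (some i))) l t := by
      intro l x t
      funext i
      by_cases hi : i = l
      · subst hi; simp
      · rw [update_of_ne (by simpa using hi), update_of_ne hi]
    have L0 : ∀ x t, gin G j0 (update x none t) = update (gin G j0 x) 0 t := by
      intro x t
      funext i
      fin_cases i <;> simp [gin, update]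
    have L1 : ∀ x t, gin G j0 (update x (some none) t) = update (gin G j0 x) 1 t := by
      intro x t
      funext i
      fin_cases i <;> simp [gin, update]
    have L2 : ∀ x l t, gin G j0 (update x (some (some l)) t) =
        update (gin G j0 x) 2 (G (update (fun i => x (some (some i))) l t) j0) := by
      intro x l t
      funext i
      fin_cases i
      · simp [gin, update]
      · simp [gin, update]
      · change G (fun i => update x (some (some l)) t (some (some i))) j0 = _
        rw [up2]
        simp
    have gate : ∀ (i : Fin 3) (o : Option (Option ι)) (x : Option (Option ι) → S),
        Bijective (fun t => T (gin G j0 (update x o t)) i) := by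
      intro i o x
      match o with
      | none => simp only [L0]; exact T2 i 0 _
      | some none => simp only [L1]; exact T2 i 1 _
      | some (some l) =>
        simp only [L2]
        exact (T2 i 2 (gin G j0 x)).comp (G2 j0 l _)
    intro i o x
    match i with
    | none => exact gate 0 o x
    | some none => exact gate 1 o x
    | some (some j) =>
      by_cases hj : j = j0
      · have : (fun t => Pool.Agent.W146.Six.step T G j0 (update x o t) (some (some j))) =
            fun t => T (gin G j0 (update x o t)) 2 := by
          funext t
          simp only [Pool.Agent.W146.Six.step, if_pos hj]
        rw [this]
        exact gate 2 o x
      · have e : (fun t => Pool.Agent.W146.Six.step T G j0 (update x o t) (some (some j))) =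
            fun t => update x o t none + update x o t (some none) +
              G (fun i => update x o t (some (some i))) j := by
          funext t
          simp only [Pool.Agent.W146.Six.step, if_neg hj]
        rw [e]
        match o with
        | none =>
          have : (fun t => update x none t none + update x none t (some none) +
              G (fun i => update x none t (some (some i))) j) =
              fun t => t + (x (some none) + G (fun i => x (some (some i))) j) := by
            funext t
            simp [update, add_assoc]
          rw [this]
          exact (Equiv.addRight _).bijective
        | some none =>
          have : (fun t => update x (some none) t none + update x (some none) t (some none) +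
              G (fun i => update x (some none) t (some (some i))) j) =
              fun t => t + (x none + G (fun i => x (some (some i))) j) := by
            funext t
            simp only [update, reduceCtorEq, dite_false, dite_true, Option.some.injEq]
            abel
          rw [this]
          exact (Equiv.addRight _).bijective
        | some (some l) =>
          have : (fun t => update x (some (some l)) t none +
              update x (some (some l)) t (some none) +
              G (fun i => update x (some (some l)) t (some (some i))) j) =
              fun t => (x none + x (some none)) + G (update (fun i => x (some (some i))) l t) j := by
            funext t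
            rw [up2]
            rw [update_of_ne (by simp), update_of_ne (by simp)]
          rw [this]
          exact (Equiv.addLeft (x none + x (some none))).bijective.comp (G2 j l _)

end Pool.Agent.W146.Six
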