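import Pool.Agent.W146.Six.Gate3
import Pool.Agent.W146.Six.Gate4
import Pool.Agent.W146.Six.Rec

set_option autoImplicit false

/-!
# `m` orthogonal latin `m`-cubes of order six for every `m ≥ 3`
-/

namespace Pool.Agent.W146.Six

open Function Pool.Agent.H430R2.PermCubes

theorem joint_all6 : ∀ m, m ≠ 0 → m ≠ 2 → Joint (Fin m) S := by
  intro m
  induction m using Nat.strong_induction_on with
  | _ m ih =>
    intro h0 h2
    by_cases h1 : m = 1
    · subst h1; exact joint_one S
    by_cases h3 : m = 3
    · subst h3; exact joint3
    by_cases h4 : m = 4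
    · subst h4; exact joint4
    have h := ih (m - 2) (by omega) (by omega) (by omega)
    have h' := Joint.step joint3 h ⟨0, by omega⟩
    refine h'.congr (Fintype.equivFinOfCardEq ?_)
    simp only [Fintype.card_option, Fintype.card_fin]
    omega

theorem joint_congrS {ι S S' : Type} [DecidableEq ι] (e : S ≃ S') (h : Joint ι S) :
    Joint ι S' := by
  obtain ⟨F, h1, h2⟩ := h
  refine ⟨fun x i => e (F (fun a => e.symm (x a)) i), ?_, ?_⟩
  · intro x y hxy
    have : F (fun a => e.symm (x a)) = F (fun a => e.symm (y a)) := by
      funext i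
      exact e.injective (congrFun hxy i)
    have := h1 this
    funext i
    exact e.symm.injective (congrFun this i)
  · intro i j x
    have : ∀ t, (fun a => e.symm (update x j t a)) = update (fun a => e.symm (x a)) j (e.symm t) := by
      intro t
      funext a
      by_cases ha : a = j
      · subst ha; simp
      · rw [update_of_ne ha, update_of_ne ha]
    simp only [this]
    exact e.bijective.comp ((h2 i j _).comp e.symm.bijective)

theorem exists_m_cubes {m : ℕ} (hm : 3 ≤ m) :
    ∃ C : Fin m → (Fin m → Fin 6) → Fin 6, IsVariationalSet m 6 m C := by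
  have e : S ≃ Fin 6 := Fintype.equivFinOfCardEq (by simp [S, ZMod.card])
  obtain ⟨F, h1, h2⟩ := joint_congrS e (joint_all6 m (by omega) (by omega))
  refine ⟨fun i x => F x i, fun i j x => h2 i j x, ?_⟩
  intro f hf
  rw [← Finite.injective_iff_bijective]
  intro x y hxy
  apply h1
  funext i
  obtain ⟨j, rfl⟩ := (Finite.injective_iff_surjective.1 hf) i
  exact congrFun hxy j

end Pool.Agent.W146.Six
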