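import Pool.Agent.H430R2.PermCubes.Lower
import Pool.Agent.H430R2.PermCubes.Upper

set_option autoImplicit false

/-!
# Orthogonal latin cubes of order six: the two basic systems

Three mutually orthogonal latin cubes and four mutually orthogonal latin 4-cubes of order 6.
-/

namespace Pool.Agent.W146.Six

open Function Pool.Agent.H430R2.PermCubes

/-- the alphabet of size six -/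
abbrev S : Type := ZMod 3 × ZMod 2

/-- table -/
def fl3 : List (List (ZMod 3)) := [[0, 2, 2, 0, 0, 1, 1, 0, 1, 0, 0, 1, 2, 1, 1, 2, 1, 2, 2, 1, 2, 0, 0, 2],
  [2, 1, 1, 2, 1, 0, 0, 2, 2, 1, 1, 0, 2, 0, 0, 2, 0, 0, 0, 2, 2, 1, 1, 1],
  [1, 0, 2, 1, 2, 2, 0, 1, 0, 2, 2, 1, 1, 0, 0, 2, 1, 2, 0, 0, 1, 0, 2, 1]]

/-- table -/
def gl3 : List (List (ZMod 2)) := [[0, 1, 1, 0, 1, 0, 0, 1, 0, 1, 1, 0, 0, 1, 1, 0, 1, 0, 0, 1, 1, 0, 0, 1],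
  [1, 1, 1, 0, 1, 1, 1, 1, 0, 0, 0, 0, 1, 0, 0, 0, 0, 1, 1, 1, 0, 0, 0, 1],
  [1, 1, 0, 0, 1, 0, 0, 1, 0, 0, 1, 1, 0, 0, 1, 1, 0, 1, 1, 0, 1, 1, 0, 0]]

/-- the ternary part -/
def f3 (i : ℕ) (t : ZMod 3) (e0 e1 e2 : ZMod 2) : ZMod 3 :=
  ((fl3.getD i []).getD (t.val * 8 + e0.val * 4 + e1.val * 2 + e2.val * 1) 0)

/-- the binary part -/
def g3 (i : ℕ) (t : ZMod 3) (e0 e1 e2 : ZMod 2) : ZMod 2 :=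
  ((gl3.getD i []).getD (t.val * 8 + e0.val * 4 + e1.val * 2 + e2.val * 1) 0)

/-- table -/
def fl4 : List (List (ZMod 3)) := [[0, 0, 2, 1, 1, 0, 0, 2, 0, 2, 1, 1, 2, 0, 2, 1, 2, 1, 1, 0, 1, 2, 0, 1, 1, 2, 0, 2, 0, 1, 2, 0, 2, 1, 2, 0, 0, 2, 1, 2, 1, 0, 0, 2, 2, 1, 1, 0],
  [1, 0, 0, 2, 0, 2, 2, 0, 0, 1, 2, 0, 2, 0, 0, 2, 2, 0, 0, 1, 1, 1, 1, 0, 0, 2, 1, 0, 1, 1, 0, 1, 2, 1, 1, 2, 0, 2, 2, 1, 1, 2, 2, 1, 2, 0, 1, 2],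
  [2, 0, 1, 1, 1, 2, 0, 2, 1, 2, 0, 2, 2, 0, 1, 1, 2, 1, 2, 0, 0, 0, 1, 2, 0, 0, 1, 2, 2, 1, 2, 0, 0, 1, 2, 0, 1, 2, 0, 1, 1, 2, 0, 1, 0, 1, 2, 0],
  [2, 2, 1, 1, 2, 1, 2, 1, 0, 0, 2, 2, 0, 2, 0, 2, 0, 0, 2, 2, 0, 2, 0, 2, 1, 1, 0, 0, 1, 0, 1, 0, 1, 1, 0, 0, 1, 0, 1, 0, 2, 2, 1, 1, 2, 1, 2, 1]]

/-- table -/
def gl4 : List (List (ZMod 2)) := [[1, 0, 1, 1, 0, 1, 0, 1, 0, 0, 1, 0, 1, 0, 0, 1, 0, 0, 0, 0, 1, 0, 1, 0, 0, 1, 0, 0, 1, 0, 1, 0, 1, 1, 0, 1, 0, 1, 1, 0, 1, 1, 1, 1, 0, 1, 0, 1],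
  [1, 1, 1, 0, 0, 0, 0, 1, 1, 1, 0, 1, 0, 0, 1, 0, 1, 0, 0, 1, 0, 1, 1, 0, 0, 1, 1, 0, 1, 0, 0, 1, 0, 0, 0, 1, 1, 1, 1, 0, 0, 0, 1, 0, 1, 1, 0, 1],
  [0, 0, 0, 1, 1, 1, 1, 0, 1, 1, 1, 0, 0, 0, 0, 1, 1, 0, 0, 0, 0, 1, 1, 1, 0, 1, 1, 1, 1, 0, 0, 0, 1, 1, 1, 1, 0, 0, 0, 0, 0, 0, 0, 0, 1, 1, 1, 1],
  [1, 0, 0, 1, 0, 1, 1, 0, 0, 1, 0, 1, 1, 1, 0, 0, 0, 1, 0, 1, 1, 1, 0, 0, 0, 1, 1, 0, 1, 0, 0, 1, 1, 0, 1, 0, 0, 0, 1, 1, 1, 0, 1, 0, 0, 0, 1, 1]]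

/-- the ternary part -/
def f4 (i : ℕ) (t : ZMod 3) (e0 e1 e2 e3 : ZMod 2) : ZMod 3 :=
  ((fl4.getD i []).getD (t.val * 16 + e0.val * 8 + e1.val * 4 + e2.val * 2 + e3.val * 1) 0)

/-- the binary part -/
def g4 (i : ℕ) (t : ZMod 3) (e0 e1 e2 e3 : ZMod 2) : ZMod 2 :=
  ((gl4.getD i []).getD (t.val * 16 + e0.val * 8 + e1.val * 4 + e2.val * 2 + e3.val * 1) 0)

theorem inj3 : ∀ (t t' : ZMod 3) (e0 e1 e2 e0' e1' e2' : ZMod 2),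
    f3 0 t e0 e1 e2 + f3 1 t e0 e1 e2 - f3 2 t e0 e1 e2 =
      f3 0 t' e0' e1' e2' + f3 1 t' e0' e1' e2' - f3 2 t' e0' e1' e2' →
    g3 0 t e0 e1 e2 = g3 0 t' e0' e1' e2' → g3 1 t e0 e1 e2 = g3 1 t' e0' e1' e2' →
    g3 2 t e0 e1 e2 = g3 2 t' e0' e1' e2' → t = t' ∧ e0 = e0' ∧ e1 = e1' ∧ e2 = e2' := by
  decide +kernel

/-- the coefficient table of the ternary parts -/
def a3 (i j : ℕ) : ZMod 3 := (([[0, 1, 0], [1, 0, 0], [1, 1, 0]] : List (List (ZMod 3))).getD i []).getD j 0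

theorem line3_0 : ∀ (i : Fin 3) (t t' : ZMod 3) (e1 e2 s s' : ZMod 2),
    a3 i 0 * t + f3 i t s e1 e2 = a3 i 0 * t' + f3 i t' s' e1 e2 →
    g3 i t s e1 e2 = g3 i t' s' e1 e2 → t = t' ∧ s = s' := by
  decide +kernel

theorem line3_1 : ∀ (i : Fin 3) (t t' : ZMod 3) (e0 e2 s s' : ZMod 2),
    a3 i 1 * t + f3 i t e0 s e2 = a3 i 1 * t' + f3 i t' e0 s' e2 →
    g3 i t e0 s e2 = g3 i t' e0 s' e2 → t = t' ∧ s = s' := by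
  decide +kernel

theorem line3_2 : ∀ (i : Fin 3) (t t' : ZMod 3) (e0 e1 s s' : ZMod 2),
    a3 i 2 * t + f3 i t e0 e1 s = a3 i 2 * t' + f3 i t' e0 e1 s' →
    g3 i t e0 e1 s = g3 i t' e0 e1 s' → t = t' ∧ s = s' := by
  decide +kernel

end Pool.Agent.W146.Six
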