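import Pool.Agent.W146.Six.Gate

set_option autoImplicit false

/-!
# Three orthogonal latin cubes of order six
-/

namespace Pool.Agent.W146.Six

open Function Pool.Agent.H430R2.PermCubes

/-- the three cubes -/
def F3 (x : Fin 3 → S) (i : Fin 3) : S :=
  (a3 i 0 * (x 0).1 + a3 i 1 * (x 1).1 + a3 i 2 * (x 2).1 +
      f3 i ((x 0).1 + (x 1).1 + (x 2).1) (x 0).2 (x 1).2 (x 2).2,
    g3 i ((x 0).1 + (x 1).1 + (x 2).1) (x 0).2 (x 1).2 (x 2).2)

theorem F3_injective : Injective F3 := by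
  intro x y h
  have h0 : F3 x 0 = F3 y 0 := congrFun h 0
  have h1 : F3 x 1 = F3 y 1 := congrFun h 1
  have h2 : F3 x 2 = F3 y 2 := congrFun h 2
  have E0 : 0 * (x 0).1 + 1 * (x 1).1 + 0 * (x 2).1 +
      f3 0 ((x 0).1 + (x 1).1 + (x 2).1) (x 0).2 (x 1).2 (x 2).2 =
      0 * (y 0).1 + 1 * (y 1).1 + 0 * (y 2).1 +
      f3 0 ((y 0).1 + (y 1).1 + (y 2).1) (y 0).2 (y 1).2 (y 2).2 := (Prod.mk.inj h0).1
  have E1 : 1 * (x 0).1 + 0 * (x 1).1 + 0 * (x 2).1 +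
      f3 1 ((x 0).1 + (x 1).1 + (x 2).1) (x 0).2 (x 1).2 (x 2).2 =
      1 * (y 0).1 + 0 * (y 1).1 + 0 * (y 2).1 +
      f3 1 ((y 0).1 + (y 1).1 + (y 2).1) (y 0).2 (y 1).2 (y 2).2 := (Prod.mk.inj h1).1
  have E2 : 1 * (x 0).1 + 1 * (x 1).1 + 0 * (x 2).1 +
      f3 2 ((x 0).1 + (x 1).1 + (x 2).1) (x 0).2 (x 1).2 (x 2).2 =
      1 * (y 0).1 + 1 * (y 1).1 + 0 * (y 2).1 +
      f3 2 ((y 0).1 + (y 1).1 + (y 2).1) (y 0).2 (y 1).2 (y 2).2 := (Prod.mk.inj h2).1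
  have G0 := (Prod.mk.inj h0).2
  have G1 := (Prod.mk.inj h1).2
  have G2 := (Prod.mk.inj h2).2
  obtain ⟨ht, he0, he1, he2⟩ := inj3 _ _ _ _ _ _ _ _
    (by linear_combination E0 + E1 - E2) G0 G1 G2
  rw [ht, he0, he1, he2] at E0 E1
  have k1 : (x 1).1 = (y 1).1 := by linear_combination E0
  have k0 : (x 0).1 = (y 0).1 := by linear_combination E1
  have k2 : (x 2).1 = (y 2).1 := by linear_combination ht - k0 - k1
  funext i
  fin_cases i
  · exact Prod.ext k0 he0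
  · exact Prod.ext k1 he1
  · exact Prod.ext k2 he2

theorem F3_line (i j : Fin 3) (x : Fin 3 → S) : Bijective (fun s => F3 (update x j s) i) := by
  rw [← Finite.injective_iff_bijective]
  intro s s' h
  fin_cases j
  · have key : ∀ s : S, F3 (update x 0 s) i =
        (a3 i 0 * s.1 + a3 i 1 * (x 1).1 + a3 i 2 * (x 2).1 +
          f3 i (s.1 + (x 1).1 + (x 2).1) s.2 (x 1).2 (x 2).2,
        g3 i (s.1 + (x 1).1 + (x 2).1) s.2 (x 1).2 (x 2).2) := fun s => rfl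
    have h' : F3 (update x 0 s) i = F3 (update x 0 s') i := h
    rw [key, key] at h'
    obtain ⟨h1, h2⟩ := Prod.mk.inj h'
    obtain ⟨ht, hs⟩ := line3_0 i _ _ _ _ _ _ (by linear_combination h1) h2
    exact Prod.ext (by linear_combination ht) hs
  · have key : ∀ s : S, F3 (update x 1 s) i =
        (a3 i 0 * (x 0).1 + a3 i 1 * s.1 + a3 i 2 * (x 2).1 +
          f3 i ((x 0).1 + s.1 + (x 2).1) (x 0).2 s.2 (x 2).2,
        g3 i ((x 0).1 + s.1 + (x 2).1) (x 0).2 s.2 (x 2).2) := fun s => rfl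
    have h' : F3 (update x 1 s) i = F3 (update x 1 s') i := h
    rw [key, key] at h'
    obtain ⟨h1, h2⟩ := Prod.mk.inj h'
    obtain ⟨ht, hs⟩ := line3_1 i _ _ _ _ _ _ (by linear_combination h1) h2
    exact Prod.ext (by linear_combination ht) hs
  · have key : ∀ s : S, F3 (update x 2 s) i =
        (a3 i 0 * (x 0).1 + a3 i 1 * (x 1).1 + a3 i 2 * s.1 +
          f3 i ((x 0).1 + (x 1).1 + s.1) (x 0).2 (x 1).2 s.2,
        g3 i ((x 0).1 + (x 1).1 + s.1) (x 0).2 (x 1).2 s.2) := fun s => rfl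
    have h' : F3 (update x 2 s) i = F3 (update x 2 s') i := h
    rw [key, key] at h'
    obtain ⟨h1, h2⟩ := Prod.mk.inj h'
    obtain ⟨ht, hs⟩ := line3_2 i _ _ _ _ _ _ (by linear_combination h1) h2
    exact Prod.ext (by linear_combination ht) hs

theorem joint3 : Joint (Fin 3) S := ⟨F3, F3_injective, F3_line⟩

end Pool.Agent.W146.Six
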